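import Pool.Agent.H413.G.R_seed8.H494R3.NK.Stmts

set_option autoImplicit false

namespace Pool.Agent.H486R3.NK

open Pool.Agent.H494R3.NK

universe u

section unital
variable {U : Type u} [CStarAlgebra U]

/-- spectral projection -/
noncomputable def gp (y : U) (μ : ℝ) : U := cfc (fun t : ℝ => if t = μ then (1 : ℝ) else 0) y

theorem gp_idem {y : U} (hf : (spectrum ℝ y).Finite) (μ : ℝ) : gp y μ * gp y μ = gp y μ := by
  have hc : ∀ f : ℝ → ℝ, ContinuousOn f (spectrum ℝ y) := fun f => hf.continuousOn f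
  unfold gp
  rw [← cfc_mul _ _ y (hc _) (hc _)]
  congr 1
  funext t
  by_cases h : t = μ <;> simp [h]

theorem gp_star (y : U) (μ : ℝ) : star (gp y μ) = gp y μ := by
  have h : IsSelfAdjoint (cfc (fun t : ℝ => if t = μ then (1 : ℝ) else 0) y) :=
    cfc_predicate (R := ℝ) (p := IsSelfAdjoint) _ y
  exact h.star_eq

theorem mul_gp {y : U} (hy : IsSelfAdjoint y) (hf : (spectrum ℝ y).Finite) (μ : ℝ) :
    y * gp y μ = μ • gp y μ := by
  have hc : ∀ f : ℝ → ℝ, ContinuousOn f (spectrum ℝ y) := fun f => hf.continuousOn f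
  have hid : cfc (fun t : ℝ => t) y = y := cfc_id' ℝ y
  have e1 : y * gp y μ = cfc (fun t : ℝ => t * (if t = μ then (1 : ℝ) else 0)) y := by
    rw [cfc_mul (fun t => t) _ y (hc _) (hc _), hid]
    rfl
  rw [e1]
  unfold gp
  rw [← cfc_smul μ _ y (hc _)]
  congr 1
  funext t
  by_cases h : t = μ <;> simp [h]

theorem sum_gp {y : U} (hy : IsSelfAdjoint y) (hf : (spectrum ℝ y).Finite) :
    ∑ μ ∈ hf.toFinset, gp y μ = 1 := by
  have hc : ∀ f : ℝ → ℝ, ContinuousOn f (spectrum ℝ y) := fun f => hf.continuousOn f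
  have h1 : ∑ μ ∈ hf.toFinset, gp y μ =
      cfc (∑ μ ∈ hf.toFinset, (fun t : ℝ => if t = μ then (1 : ℝ) else 0)) y := by
    rw [cfc_sum _ y _ (fun i _ => hc _)]
    rfl
  rw [h1]
  have h2 : Set.EqOn (∑ μ ∈ hf.toFinset, (fun t : ℝ => if t = μ then (1 : ℝ) else 0))
      (fun _ => (1 : ℝ)) (spectrum ℝ y) := by
    intro t ht
    rw [Finset.sum_apply]
    rw [Finset.sum_ite_eq]
    rw [if_pos (hf.mem_toFinset.2 ht)]
  rw [cfc_congr h2]
  exact cfc_const_one ℝ y

end unital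

section nonunital
variable {A : Type u} [NonUnitalCStarAlgebra A]

/-- the projection in `A` -/
noncomputable def fp (y : Unitization ℂ A) (μ : ℝ) : A :=
  open Classical in if (gp y μ).fst = 0 then (gp y μ).snd else 0

theorem eq_inr {z : Unitization ℂ A} (h : z.fst = 0) : z = (z.snd : Unitization ℂ A) := by
  conv_lhs => rw [← Unitization.inl_fst_add_inr_snd_eq z]
  rw [h, Unitization.inl_zero, zero_add]

theorem fp_spec {y : Unitization ℂ A} (hf : (spectrum ℝ y).Finite) (μ : ℝ) :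
    fp y μ * fp y μ = fp y μ ∧ star (fp y μ) = fp y μ := by
  unfold fp
  split_ifs with h
  · have h1 := eq_inr h
    have h2 := gp_idem hf μ
    have h3 := gp_star y μ
    constructor
    · apply Unitization.inr_injective (R := ℂ)
      rw [Unitization.inr_mul, ← h1, h2]
    · apply Unitization.inr_injective (R := ℂ)
      rw [Unitization.inr_star, ← h1, h3]
  · simp

theorem coef {y : Unitization ℂ A} (hy : IsSelfAdjoint y) (hf : (spectrum ℝ y).Finite) (μ : ℝ) :
    ((μ : ℂ) - y.fst) • gp y μ = ((((μ : ℂ) - y.fst) • fp y μ : A) : Unitization ℂ A) := by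
  unfold fp
  split_ifs with h
  · rw [Unitization.inr_smul, ← eq_inr h]
  · have h1 : y * gp y μ = (μ : ℂ) • gp y μ := by
      rw [mul_gp hy hf μ, Complex.coe_smul]
    have h2 : (y * gp y μ).fst = ((μ : ℂ) • gp y μ).fst := by rw [h1]
    rw [Unitization.fst_mul, Unitization.fst_smul, smul_eq_mul] at h2
    have h3 : y.fst = μ := mul_right_cancel₀ h h2
    rw [h3, sub_self, zero_smul, zero_smul, Unitization.inr_zero]

theorem sa_case (hA : RealRankZero A) (x : A) (hx : IsSelfAdjoint x) (ε : ℝ) (hε : 0 < ε) :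
    ∃ (ι : Type) (_ : Fintype ι) (f : ι → A) (c : ι → ℂ),
      (∀ i, f i * f i = f i ∧ star (f i) = f i) ∧ ‖x - ∑ i, c i • f i‖ < ε := by
  have hx' : IsSelfAdjoint (x : Unitization ℂ A) := by
    show star _ = _
    rw [← Unitization.inr_star, hx.star_eq]
  obtain ⟨y, hy, hfin, hxy⟩ := hA x hx' (ε / 2) (half_pos hε)
  have hf : (spectrum ℝ y).Finite := by
    rw [← spectrum.preimage_algebraMap (S := ℂ)]
    exact hfin.preimage (Set.injOn_of_injective (algebraMap ℝ ℂ).injective)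
  refine ⟨{μ // μ ∈ hf.toFinset}, inferInstance, fun μ => fp y μ, fun μ => (μ : ℂ) - y.fst,
    fun μ => fp_spec hf μ, ?_⟩
  have h1 : y - y.fst • (1 : Unitization ℂ A) =
      ((∑ μ : {μ // μ ∈ hf.toFinset}, ((μ : ℂ) - y.fst) • fp y μ : A) : Unitization ℂ A) := by
    have e1 : y = ∑ μ ∈ hf.toFinset, (μ : ℂ) • gp y μ := by
      calc y = y * ∑ μ ∈ hf.toFinset, gp y μ := by rw [sum_gp hy hf, mul_one]
        _ = _ := by
          rw [Finset.mul_sum]
          refine Finset.sum_congr rfl fun μ _ => ?_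
          rw [mul_gp hy hf μ, Complex.coe_smul]
    have e2 : y.fst • (1 : Unitization ℂ A) = ∑ μ ∈ hf.toFinset, y.fst • gp y μ := by
      rw [← Finset.smul_sum, sum_gp hy hf]
    have e3 : y - y.fst • (1 : Unitization ℂ A) =
        ∑ μ ∈ hf.toFinset, ((μ : ℂ) - y.fst) • gp y μ := by
      calc y - y.fst • (1 : Unitization ℂ A) =
          (∑ μ ∈ hf.toFinset, (μ : ℂ) • gp y μ) - ∑ μ ∈ hf.toFinset, y.fst • gp y μ :=
            congrArg₂ (· - ·) e1 e2
        _ = _ := by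
          rw [← Finset.sum_sub_distrib]
          exact Finset.sum_congr rfl fun μ _ => (sub_smul _ _ _).symm
    rw [e3]
    have e4 : ∑ μ ∈ hf.toFinset, ((μ : ℂ) - y.fst) • gp y μ =
        ∑ μ : {μ // μ ∈ hf.toFinset}, ((((μ : ℝ) : ℂ) - y.fst) • gp y μ) :=
      (Finset.sum_coe_sort hf.toFinset (fun μ : ℝ => ((μ : ℂ) - y.fst) • gp y μ)).symm
    rw [e4]
    have e5 : ((∑ μ : {μ // μ ∈ hf.toFinset}, (((μ : ℝ) : ℂ) - y.fst) • fp y μ : A) :
        Unitization ℂ A) = ∑ μ : {μ // μ ∈ hf.toFinset},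
          ((((((μ : ℝ) : ℂ) - y.fst) • fp y μ : A)) : Unitization ℂ A) :=
      map_sum (Unitization.inrHom ℂ ℂ A) _ _
    rw [e5]
    exact Finset.sum_congr rfl fun μ _ => coef hy hf μ
  have h2 : ‖y.fst‖ < ε / 2 := by
    have e1 : ((x : Unitization ℂ A) - y).fst = - y.fst := by
      rw [sub_eq_add_neg, Unitization.fst_add, Unitization.fst_neg, Unitization.fst_inr, zero_add]
    have e2 : ‖((x : Unitization ℂ A) - y).fst‖ ≤ ‖(x : Unitization ℂ A) - y‖ := by
      rw [Unitization.norm_eq_sup]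
      exact le_sup_left
    rw [e1, norm_neg] at e2
    exact lt_of_le_of_lt e2 hxy
  rw [← Unitization.norm_inr (𝕜 := ℂ), Unitization.inr_sub, ← h1]
  have h3 : (x : Unitization ℂ A) - (y - y.fst • 1) = (x - y) + y.fst • (1 : Unitization ℂ A) := by
    abel
  rw [h3]
  have h4 : ‖y.fst • (1 : Unitization ℂ A)‖ ≤ ‖y.fst‖ := by
    rw [norm_smul, norm_one, mul_one]
  calc ‖((x : Unitization ℂ A) - y) + y.fst • (1 : Unitization ℂ A)‖
      ≤ ‖(x : Unitization ℂ A) - y‖ + ‖y.fst • (1 : Unitization ℂ A)‖ := norm_add_le _ _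
    _ < ε / 2 + ε / 2 := by linarith
    _ = ε := by ring

end nonunital

open ComplexStarModule in
theorem taskDense : TaskDense.{u} := by
  intro A _ hA x ε hε
  obtain ⟨ι₁, _, f₁, c₁, h₁, k₁⟩ := sa_case hA (realPart x : A) (realPart x).2 (ε / 2) (half_pos hε)
  obtain ⟨ι₂, _, f₂, c₂, h₂, k₂⟩ := sa_case hA (imaginaryPart x : A) (imaginaryPart x).2 (ε / 2)
    (half_pos hε)
  let e := Fintype.equivFin (ι₁ ⊕ ι₂)
  refine ⟨Fintype.card (ι₁ ⊕ ι₂), fun i => Sum.elim f₁ f₂ (e.symm i),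
    fun i => Sum.elim c₁ (fun j => Complex.I * c₂ j) (e.symm i), ?_, ?_⟩
  · have h0 : ∀ s : ι₁ ⊕ ι₂, Sum.elim f₁ f₂ s * Sum.elim f₁ f₂ s = Sum.elim f₁ f₂ s ∧
        star (Sum.elim f₁ f₂ s) = Sum.elim f₁ f₂ s := by
      rintro (j | j)
      · exact h₁ j
      · exact h₂ j
    exact fun i => h0 (e.symm i)
  · have h3 : ∑ i, (Sum.elim c₁ (fun j => Complex.I * c₂ j) (e.symm i)) •
        (Sum.elim f₁ f₂ (e.symm i)) = ∑ j, c₁ j • f₁ j + Complex.I • ∑ j, c₂ j • f₂ j := by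
      rw [Equiv.sum_comp e.symm (fun s => (Sum.elim c₁ (fun j => Complex.I * c₂ j) s) •
        (Sum.elim f₁ f₂ s)), Fintype.sum_sum_type, Finset.smul_sum]
      simp only [Sum.elim_inl, Sum.elim_inr, mul_smul]
    rw [h3]
    have h4 : x - (∑ j, c₁ j • f₁ j + Complex.I • ∑ j, c₂ j • f₂ j) =
        ((realPart x : A) - ∑ j, c₁ j • f₁ j) +
          Complex.I • ((imaginaryPart x : A) - ∑ j, c₂ j • f₂ j) := by
      conv_lhs => rw [← realPart_add_I_smul_imaginaryPart x]
      rw [smul_sub]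
      abel
    rw [h4]
    calc ‖((realPart x : A) - ∑ j, c₁ j • f₁ j) +
          Complex.I • ((imaginaryPart x : A) - ∑ j, c₂ j • f₂ j)‖
        ≤ ‖(realPart x : A) - ∑ j, c₁ j • f₁ j‖ +
          ‖Complex.I • ((imaginaryPart x : A) - ∑ j, c₂ j • f₂ j)‖ := norm_add_le _ _
      _ < ε / 2 + ε / 2 := by
          rw [norm_smul, Complex.norm_I, one_mul]
          linarith
      _ = ε := by ring

end Pool.Agent.H486R3.NK
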